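import Mathlib

/-!
Flips of k-triangulations of convex polygons: a counterexample to the common edge property.

A pair of 2-triangulations of the convex decagon, both containing the edge {0,5}, such that every
shortest path between them in the flip graph flips the edge {0,5}.
-/

namespace Pool.Agent.Results.MP_1d99bd_co.CommonEdgeFlip

/-- An edge of the convex polygon with vertices `0, 1, ..., n-1` in cyclic order: a pair of
distinct vertices, the smaller one first.  (Sides and diagonals are both edges.) -/
abbrev Edge (n : ℕ) : Type := {e : Fin n × Fin n // e.1 < e.2}

/-- Two edges cross when their endpoints are distinct and alternate around the polygon. -/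
def Crosses {n : ℕ} (e f : Edge n) : Prop :=
  (e.1.1 < f.1.1 ∧ f.1.1 < e.1.2 ∧ e.1.2 < f.1.2) ∨
    (f.1.1 < e.1.1 ∧ e.1.1 < f.1.2 ∧ f.1.2 < e.1.2)

instance {n : ℕ} (e f : Edge n) : Decidable (Crosses e f) := by
  unfold Crosses; infer_instance

/-- `T` does not contain `k + 1` pairwise crossing edges. -/
def CrossingFree {n : ℕ} (k : ℕ) (T : Finset (Edge n)) : Prop :=
  ∀ S ⊆ T, S.card = k + 1 → ¬ (S : Set (Edge n)).Pairwise Crosses

/-- A `k`-triangulation of the convex `n`-gon: an inclusion-maximal set of edges without `k + 1`
pairwise crossing edges. -/
def IsKTriangulation {n : ℕ} (k : ℕ) (T : Finset (Edge n)) : Prop :=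
  Maximal (CrossingFree k) T

/-- The type of `k`-triangulations of the convex `n`-gon. -/
abbrev KTriangulation (n k : ℕ) : Type := {T : Finset (Edge n) // IsKTriangulation k T}

/-- The flip graph: two `k`-triangulations are adjacent when one is obtained from the other by
exchanging one edge. -/
def flipGraph (n k : ℕ) : SimpleGraph (KTriangulation n k) where
  Adj T T' := ∃ e ∈ T.1, ∃ f ∉ T.1, T'.1 = insert f (T.1.erase e)
  symm := by
    constructor
    rintro T T' ⟨e, he, f, hf, h⟩
    refine ⟨f, by rw [h]; exact Finset.mem_insert_self _ _, e, ?_, ?_⟩
    · rw [h, Finset.mem_insert, Finset.mem_erase]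
      rintro (rfl | h)
      · exact hf he
      · exact h.1 rfl
    · rw [h, Finset.erase_insert (fun hh => hf (Finset.mem_of_mem_erase hh)),
        Finset.insert_erase he]
  loopless := by
    constructor
    rintro T ⟨e, he, f, hf, h⟩
    exact hf (by rw [h]; exact Finset.mem_insert_self _ _)

/-- A walk in the flip graph flips the edge `g` when one of its steps removes `g`. -/
def Flips {n k : ℕ} {T T' : KTriangulation n k} (p : (flipGraph n k).Walk T T')
    (g : Edge n) : Prop :=
  ∃ d ∈ p.darts, g ∈ d.fst.1 ∧ g ∉ d.snd.1

/-! ### Bit mask encoding for the decagon -/

/-- The code of an edge of the decagon. -/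
def code (e : Edge 10) : ℕ := 10 * e.1.1.val + e.1.2.val

/-- The codes of the 45 edges of the decagon. -/
def edgeCodes : List ℕ := [1, 2, 3, 4, 5, 6, 7, 8, 9, 12, 13, 14, 15, 16, 17, 18, 19, 23, 24, 25, 26, 27, 28, 29, 34, 35, 36, 37, 38, 39, 45, 46, 47, 48, 49, 56, 57, 58, 59, 67, 68, 69, 78, 79, 89]

/-- The masks of the edges crossing a given edge, stored in one number. -/
def crossTable : ℕ := 4049764541675605303144297880632581016799889319330502644818591565526573639441747187909545692694283721049070329092717326899016922295577403068005437604070525886842147455996842511169572945383430692148926524015494570027721367833781721840198103155567856492310116246557426682267066378908111445617054565826722273460333123518919131184648930026658210406631584831798621023083223221726993918888345622413801928351220627594971989632435877958032967111627187345665911065553963115834215219213031226411407603158981913869996855719011796542175076934348136032771356733364880491208281184017705668617064442675554470764965406696116555593467626191119096763424133960590176792831114162825646176642458058776741283075428769785073823813429293351926928570318010586916441028855823543046037916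6351823810471006724857295293554167658658665886419492873121258505486570172729818994927742046809320926301884899349866564023639682597812361464820650680618020343926824944908522047431411173827019152555507948813422199929170389496912222152756837641666918091411536969342016182790762411387774437920466912328830569427351140612229661831100803106101831797864191420879222567867808396029207811039031185566644401742996615958050301628141493486606790109719991737047912246896637510940444082211901911232964943453801083072290990085591461470322453694277261117336748790004285771710308451875970446329358941405556455441019307469612537765991622571551163318364117510176154217531453413885350083870040394921804980158720840754041302733707023522627427739537861096413768513322631716400805298201877059688757064866431533603052865765362093346269160049600859901987871607232559589791937426747426613390616423554405764836982449855988194553187177437461260349078860881219786638039536548562186560142692280014379493727070900591478613332374409335866925269690197324792998529254126861375885655596912055012626420312673652708269438857741141337504695833287120356505616451167349362986029605658325103802430639819203434976885828702385908121031958546995943219580677060918676740686925228528070643772314318233114092742389095530310054668563246225012380180647673928363239468025749183542448268802095385762957299013593042075395010604302416721582723777840570131682835746229809193751573937653287994385046637989151307126614561116762506566095722670941669907428991573541675151617255523518048466965715736044837981113683338978181962144169979855043242825791020405200946952328473611386504274239996303507456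

/-- The mask of the edges crossing the edge with code `i`. -/
def cm (i : ℕ) : ℕ := (crossTable >>> (100 * i)) % 2 ^ 100

/-- The set of edges with a given mask. -/
def decode (M : ℕ) : Finset (Edge 10) := Finset.univ.filter fun e => M.testBit (code e) = true

theorem mem_decode {M : ℕ} {e : Edge 10} : e ∈ decode M ↔ M.testBit (code e) = true := by
  simp [decode]

theorem code_injective : Function.Injective code := by
  rintro ⟨⟨a, b⟩, h⟩ ⟨⟨c, d⟩, h'⟩ he
  simp only [code] at he
  have ha := a.isLt; have hb := b.isLt; have hc := c.isLt; have hd := d.isLt
  have h1 : a = c := Fin.ext (by omega)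
  have h2 : b = d := Fin.ext (by omega)
  subst h1; subst h2; rfl

theorem code_mem : ∀ e : Edge 10, code e ∈ edgeCodes := by decide +kernel

theorem exists_code : ∀ i ∈ edgeCodes, ∃ e : Edge 10, code e = i := by decide +kernel

theorem cm_spec : ∀ e f : Edge 10, (cm (code e)).testBit (code f) = decide (Crosses e f) := by
  decide +kernel

theorem crosses_symm {n : ℕ} {e f : Edge n} (h : Crosses e f) : Crosses f e := by
  rcases h with h | h
  · exact Or.inr h
  · exact Or.inl h

/-- Does the set with mask `M` contain two edges that cross each other and the edge `f`? -/
def has3 (M f : ℕ) : Bool :=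
  edgeCodes.any fun a => (M &&& cm f).testBit a && ((M &&& cm f &&& cm a != 0) &&
    edgeCodes.any fun b => (M &&& cm f &&& cm a).testBit b)

theorem has3_spec {M : ℕ} {f : Edge 10} (h : has3 M (code f) = true) :
    ∃ a b : Edge 10, a ∈ decode M ∧ b ∈ decode M ∧ Crosses f a ∧ Crosses f b ∧ Crosses a b := by
  simp only [has3, List.any_eq_true, Bool.and_eq_true] at h
  obtain ⟨i, hi, h1, -, j, hj, h2⟩ := h
  obtain ⟨a, rfl⟩ := exists_code i hi
  obtain ⟨b, rfl⟩ := exists_code j hj
  simp only [Nat.testBit_and, Bool.and_eq_true, cm_spec, decide_eq_true_eq] at h1 h2
  exact ⟨a, b, mem_decode.2 h1.1, mem_decode.2 h2.1.1, h1.2, h2.1.2, h2.2⟩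

theorem not_crosses_self {n : ℕ} (e : Edge n) : ¬ Crosses e e := by
  rintro (h | h) <;> exact lt_irrefl _ h.1

theorem not_free_of_has3 {M : ℕ} {f : Edge 10} {T : Finset (Edge 10)} (h : has3 M (code f) = true)
    (hM : decode M ⊆ T) (hf : f ∈ T) : ¬ CrossingFree 2 T := by
  obtain ⟨a, b, ha, hb, h1, h2, h3⟩ := has3_spec h
  intro hT
  have hfa : f ≠ a := fun hh => not_crosses_self a (hh ▸ h1)
  have hfb : f ≠ b := fun hh => not_crosses_self b (hh ▸ h2)
  have hab : a ≠ b := fun hh => not_crosses_self b (hh ▸ h3)
  refine hT {f, a, b} ?_ (Finset.card_eq_three.2 ⟨f, a, b, hfa, hfb, hab, rfl⟩) ?_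
  · intro x hx
    simp only [Finset.mem_insert, Finset.mem_singleton] at hx
    rcases hx with rfl | rfl | rfl
    · exact hf
    · exact hM ha
    · exact hM hb
  · intro x hx y hy hxy
    simp only [Finset.coe_insert, Finset.coe_singleton, Set.mem_insert_iff,
      Set.mem_singleton_iff] at hx hy
    rcases hx with rfl | rfl | rfl <;> rcases hy with rfl | rfl | rfl <;>
      first
        | exact absurd rfl hxy
        | assumption
        | exact crosses_symm (by assumption)

/-- Boolean test: the set with mask `M` is a `2`-triangulation. -/
def isTri (M : ℕ) : Bool :=
  (edgeCodes.all fun a => !(M.testBit a) || edgeCodes.all fun b => !((M &&& cm a).testBit b) ||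
    (edgeCodes.all fun c => !((M &&& cm a &&& cm b).testBit c))) &&
  (edgeCodes.all fun f => M.testBit f || has3 M f)

theorem isTri_spec {M : ℕ} (h : isTri M = true) : IsKTriangulation 2 (decode M) := by
  simp only [isTri, Bool.and_eq_true, List.all_eq_true, Bool.or_eq_true, Bool.not_eq_true'] at h
  obtain ⟨h1, h2⟩ := h
  constructor
  · intro S hS hc hP
    obtain ⟨a, b, c, hab, hac, hbc, rfl⟩ := Finset.card_eq_three.1 hc
    have ha := mem_decode.1 (hS (by simp : a ∈ ({a, b, c} : Finset (Edge 10))))
    have hb := mem_decode.1 (hS (by simp : b ∈ ({a, b, c} : Finset (Edge 10))))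
    have hc' := mem_decode.1 (hS (by simp : c ∈ ({a, b, c} : Finset (Edge 10))))
    have h3 : Crosses a b := hP (by simp) (by simp) hab
    have h4 : Crosses a c := hP (by simp) (by simp) hac
    have h5 : Crosses b c := hP (by simp) (by simp) hbc
    rcases h1 _ (code_mem a) with h | h
    · rw [ha] at h; cases h
    · rcases h _ (code_mem b) with h | h
      · simp [Nat.testBit_and, cm_spec, hb, h3] at h
      · have := h _ (code_mem c)
        simp [Nat.testBit_and, cm_spec, hc', h4, h5] at this
  · intro T hT hMT f hf
    rcases h2 _ (code_mem f) with h | h
    · exact mem_decode.2 h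
    · exact absurd hT (not_free_of_has3 h hMT hf)

/-- Boolean search for short flip paths that keep the edge `g`; `true` means that there are none.
`d` is the number of edges of the current set that are missing in the target. -/
def search (Q g : ℕ) : ℕ → ℕ → ℕ → Bool
  | 0, _, d => !(d == 0)
  | r + 1, M, d => !(d == 0) && edgeCodes.all fun e => (!(M.testBit e) || e == g) ||
      edgeCodes.all fun f => M.testBit f ||
        (Nat.blt r (d + (if Q.testBit f then 0 else 1) - (if Q.testBit e then 0 else 1)) ||
          (has3 (M ^^^ 2 ^ e) f || search Q g r ((M ^^^ 2 ^ e) ||| 2 ^ f)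
            (d + (if Q.testBit f then 0 else 1) - (if Q.testBit e then 0 else 1))))

theorem decode_erase {M : ℕ} {e : Edge 10} (he : e ∈ decode M) :
    decode (M ^^^ 2 ^ code e) = (decode M).erase e := by
  ext x
  rw [Finset.mem_erase, mem_decode, mem_decode, Nat.testBit_xor, Nat.testBit_two_pow]
  by_cases h : x = e
  · subst h
    simp [mem_decode.1 he]
  · have : code e ≠ code x := fun hh => h (code_injective hh).symm
    simp [this, h]

theorem decode_insert {M : ℕ} {f : Edge 10} :
    decode (M ||| 2 ^ code f) = insert f (decode M) := by
  ext x
  rw [Finset.mem_insert, mem_decode, mem_decode, Nat.testBit_or, Nat.testBit_two_pow]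
  by_cases h : x = f
  · subst h
    simp
  · have : code f ≠ code x := fun hh => h (code_injective hh).symm
    simp [this, h]

theorem card_step {X Z Y : Finset (Edge 10)} {e f : Edge 10} (he : e ∈ X) (hf : f ∉ X)
    (hZ : Z = insert f (X.erase e)) :
    (Z \ Y).card = (X \ Y).card + (if f ∈ Y then 0 else 1) - (if e ∈ Y then 0 else 1) := by
  subst hZ
  have hfe : f ∉ X.erase e := fun h => hf (Finset.mem_of_mem_erase h)
  have key : (X \ Y).card = ((X.erase e) \ Y).card + (if e ∈ Y then 0 else 1) := by
    by_cases h : e ∈ Y
    · have : (X.erase e) \ Y = X \ Y := by
        ext x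
        simp only [Finset.mem_sdiff, Finset.mem_erase]
        constructor
        · rintro ⟨⟨-, h1⟩, h2⟩; exact ⟨h1, h2⟩
        · rintro ⟨h1, h2⟩
          exact ⟨⟨fun hh => h2 (hh ▸ h), h1⟩, h2⟩
      rw [this]; simp [h]
    · have : X \ Y = insert e ((X.erase e) \ Y) := by
        ext x
        simp only [Finset.mem_sdiff, Finset.mem_erase, Finset.mem_insert]
        constructor
        · rintro ⟨h1, h2⟩
          by_cases hx : x = e
          · exact Or.inl hx
          · exact Or.inr ⟨⟨hx, h1⟩, h2⟩
        · rintro (rfl | ⟨⟨-, h1⟩, h2⟩)
          · exact ⟨he, h⟩
          · exact ⟨h1, h2⟩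
      rw [this, Finset.card_insert_of_notMem (by simp)]
      simp [h]
  by_cases h : f ∈ Y
  · have h1 : insert f (X.erase e) \ Y = (X.erase e) \ Y := Finset.insert_sdiff_of_mem _ h
    rw [h1, key]
    simp only [h, if_true]
    omega
  · have h1 : insert f (X.erase e) \ Y = insert f ((X.erase e) \ Y) :=
      Finset.insert_sdiff_of_notMem _ h
    rw [h1, Finset.card_insert_of_notMem (by simp [hf]), key]
    simp only [h, if_false]
    omega

theorem card_le_length {X Y : KTriangulation 10 2} (p : (flipGraph 10 2).Walk X Y) :
    (X.1 \ Y.1).card ≤ p.length := by
  induction p with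
  | nil => simp
  | @cons u v w h p ih =>
    have hadj := h
    obtain ⟨e, he, f, hf, hZ⟩ := hadj
    have := card_step (Y := w.1) he hf hZ
    rw [SimpleGraph.Walk.length_cons]
    split_ifs at this <;> omega

theorem search_spec {Q : ℕ} {G : Edge 10} {Y : KTriangulation 10 2} (hY : Y.1 = decode Q) :
    ∀ (r M d : ℕ) (X : KTriangulation 10 2) (p : (flipGraph 10 2).Walk X Y),
      X.1 = decode M → (X.1 \ Y.1).card = d → search Q (code G) r M d = true →
      G ∈ X.1 → p.length ≤ r → Flips p G := by
  intro r
  induction r with
  | zero =>
    intro M d X p hX hd hs hG hp
    exfalso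
    have := card_le_length p
    simp only [search, Bool.not_eq_true', beq_eq_false_iff_ne, ne_eq] at hs
    omega
  | succ r ih =>
    intro M d X p hX hd hs hG hp
    simp only [search, Bool.and_eq_true, Bool.not_eq_true', beq_eq_false_iff_ne, ne_eq,
      List.all_eq_true, Bool.or_eq_true, beq_iff_eq] at hs
    obtain ⟨h0, hs⟩ := hs
    cases p with
    | nil => exact absurd (by simp at hd; exact hd.symm) h0
    | @cons _ Z _ h p =>
      have hadj := h
      obtain ⟨e, he, f, hf, hZ⟩ := hadj
      by_cases hGZ : G ∈ Z.1
      swap
      · refine ⟨⟨(X, Z), h⟩, ?_, hG, hGZ⟩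
        rw [SimpleGraph.Walk.darts_cons]
        exact List.mem_cons_self
      have heM : e ∈ decode M := hX ▸ he
      have hfM : f ∉ decode M := hX ▸ hf
      have heG : e ≠ G := by
        rintro rfl
        rw [hZ, Finset.mem_insert] at hGZ
        rcases hGZ with rfl | hGZ
        · exact hf he
        · exact (Finset.mem_erase.1 hGZ).1 rfl
      have hstep := card_step (Y := Y.1) he hf hZ
      have hlen := card_le_length p
      rw [SimpleGraph.Walk.length_cons] at hp
      have hZM : Z.1 = decode ((M ^^^ 2 ^ code e) ||| 2 ^ code f) := by
        rw [decode_insert, decode_erase heM, ← hX, hZ]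
      have hqe : (if Q.testBit (code e) then 0 else 1) = (if e ∈ Y.1 then 0 else 1) := by
        rw [hY]; simp only [mem_decode]
      have hqf : (if Q.testBit (code f) then 0 else 1) = (if f ∈ Y.1 then 0 else 1) := by
        rw [hY]; simp only [mem_decode]
      rcases hs _ (code_mem e) with (h1 | h1) | h1
      · rw [mem_decode.1 heM] at h1; cases h1
      · exact absurd (code_injective h1) heG
      · rcases h1 _ (code_mem f) with h2 | h2
        · exact absurd (mem_decode.2 h2) hfM
        · rw [hqe, hqf, ← hd, ← hstep] at h2
          rcases h2 with h2 | h2 | h2
          · exfalso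
            rw [Nat.blt_eq] at h2
            omega
          · exfalso
            refine not_free_of_has3 h2 ?_ (hZ ▸ Finset.mem_insert_self _ _) Z.2.1
            rw [decode_erase heM, ← hX, hZ]
            exact Finset.subset_insert _ _
          · obtain ⟨d', hd', hd''⟩ := ih _ _ Z p hZM rfl h2 hGZ (by omega)
            refine ⟨d', ?_, hd''⟩
            rw [SimpleGraph.Walk.darts_cons]
            exact List.mem_cons_of_mem _ hd'

/-- The masks of the 2-triangulations on the shortest path. -/
def path : List ℕ := [619877156945537333942236158, 619877156945678071430591454, 619877156945959546407171038, 619877156946522496360330206, 619877156946522496897135582, 619877156946523046585840606, 619877156946522977866363902]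

theorem path_isTri : ∀ M ∈ path, isTri M = true := by decide +kernel

/-- A `2`-triangulation of the decagon given by its mask. -/
def tri (M : ℕ) (h : M ∈ path) : KTriangulation 10 2 := ⟨decode M, isTri_spec (path_isTri M h)⟩

theorem adj_of (M M' : ℕ) (e f : Edge 10) (h : M ∈ path) (h' : M' ∈ path)
    (hM : (M ^^^ 2 ^ code e) ||| 2 ^ code f = M')
    (he : M.testBit (code e) = true) (hf : M.testBit (code f) = false) :
    (flipGraph 10 2).Adj (tri M h) (tri M' h') := by
  refine ⟨e, mem_decode.2 he, f, ?_, ?_⟩
  · intro hh
    have := mem_decode.1 hh
    rw [hf] at this
    cases this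
  · show decode M' = insert f ((decode M).erase e)
    rw [← hM, decode_insert, decode_erase (mem_decode.2 he)]

theorem step1 : (flipGraph 10 2).Adj (tri 619877156945537333942236158 (by decide +kernel))
    (tri 619877156945678071430591454 (by decide +kernel)) :=
  adj_of 619877156945537333942236158 619877156945678071430591454 ⟨(0, 5), by decide⟩ ⟨(4, 7), by decide⟩
    (by decide +kernel) (by decide +kernel) (by decide +kernel) (by decide +kernel)
    (by decide +kernel)

theorem step2 : (flipGraph 10 2).Adj (tri 619877156945678071430591454 (by decide +kernel))
    (tri 619877156945959546407171038 (by decide +kernel)) :=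
  adj_of 619877156945678071430591454 619877156945959546407171038 ⟨(1, 7), by decide⟩ ⟨(4, 8), by decide⟩
    (by decide +kernel) (by decide +kernel) (by decide +kernel) (by decide +kernel)
    (by decide +kernel)

theorem step3 : (flipGraph 10 2).Adj (tri 619877156945959546407171038 (by decide +kernel))
    (tri 619877156946522496360330206 (by decide +kernel)) :=
  adj_of 619877156945959546407171038 619877156946522496360330206 ⟨(1, 8), by decide⟩ ⟨(4, 9), by decide⟩
    (by decide +kernel) (by decide +kernel) (by decide +kernel) (by decide +kernel)
    (by decide +kernel)

theorem step4 : (flipGraph 10 2).Adj (tri 619877156946522496360330206 (by decide +kernel))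
    (tri 619877156946522496897135582 (by decide +kernel)) :=
  adj_of 619877156946522496360330206 619877156946522496897135582 ⟨(1, 6), by decide⟩ ⟨(2, 9), by decide⟩
    (by decide +kernel) (by decide +kernel) (by decide +kernel) (by decide +kernel)
    (by decide +kernel)

theorem step5 : (flipGraph 10 2).Adj (tri 619877156946522496897135582 (by decide +kernel))
    (tri 619877156946523046585840606 (by decide +kernel)) :=
  adj_of 619877156946522496897135582 619877156946523046585840606 ⟨(2, 6), by decide⟩ ⟨(3, 9), by decide⟩
    (by decide +kernel) (by decide +kernel) (by decide +kernel) (by decide +kernel)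
    (by decide +kernel)

theorem step6 : (flipGraph 10 2).Adj (tri 619877156946523046585840606 (by decide +kernel))
    (tri 619877156946522977866363902 (by decide +kernel)) :=
  adj_of 619877156946523046585840606 619877156946522977866363902 ⟨(3, 6), by decide⟩ ⟨(0, 5), by decide⟩
    (by decide +kernel) (by decide +kernel) (by decide +kernel) (by decide +kernel)
    (by decide +kernel)

/-- The first 2-triangulation. -/
def triA : KTriangulation 10 2 := tri 619877156945537333942236158 (by decide +kernel)

/-- The second 2-triangulation. -/
def triB : KTriangulation 10 2 := tri 619877156946522977866363902 (by decide +kernel)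

/-- A flip path of length six between them. -/
def pathAB : (flipGraph 10 2).Walk triA triB :=
  .cons step1 (.cons step2 (.cons step3 (.cons step4 (.cons step5 (.cons step6 .nil)))))

theorem search_true : search 619877156946522977866363902 5 6 619877156945537333942236158 5 = true := by decide +kernel

/-- **Main result.** There are two `2`-triangulations `T`, `T'` of the convex decagon and an edge
`g` common to both such that every shortest path from `T` to `T'` in the flip graph flips `g`
(and there is such a path). -/
theorem result : ∃ (T T' : KTriangulation 10 2) (g : Edge 10), g ∈ T.1 ∧ g ∈ T'.1 ∧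
    (flipGraph 10 2).Reachable T T' ∧
    ∀ p : (flipGraph 10 2).Walk T T', p.length = (flipGraph 10 2).dist T T' → Flips p g := by
  have hA : (⟨(0, 5), by decide⟩ : Edge 10) ∈ triA.1 := mem_decode.2 (by decide +kernel)
  refine ⟨triA, triB, ⟨(0, 5), by decide⟩, hA, mem_decode.2 (by decide +kernel),
    ⟨pathAB⟩, fun p hp => ?_⟩
  refine search_spec (Q := 619877156946522977866363902) rfl 6 619877156945537333942236158 5 triA p rfl ?_ search_true hA ?_
  · show (decode 619877156945537333942236158 \ decode 619877156946522977866363902).card = 5
    decide +kernel
  · rw [hp]
    exact SimpleGraph.dist_le pathAB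


end Pool.Agent.Results.MP_1d99bd_co.CommonEdgeFlip
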